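import Pool.Agent.H17.CI.TargetsF

/-!
# MP_70ba79_ag: row PTT of the board `ci_modules`: points of `X`
-/

set_option autoImplicit false

namespace Pool.Agent.H99.CI

open MvPolynomial SC Pool.Agent.H27.LV Pool.Agent.H17.VG Pool.Agent.H17.CI

lemma aeval_deh {k K : Type} [Field k] [Field K] [Algebra k K] {n : ℕ} {σ : Type}
    (F : MvPolynomial (Fin (n + 1)) k) (z : Fin n ⊕ σ → K) :
    aeval z (rename Sum.inl (deh F)) =
      eval (Fin.cons 1 fun a => z (Sum.inl a) : Fin (n + 1) → K) (up K F) := by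
  have h1 : eval (Fin.cons 1 fun a => z (Sum.inl a) : Fin (n + 1) → K) (up K F) =
      aeval (Fin.cons 1 fun a => z (Sum.inl a) : Fin (n + 1) → K) F := by
    unfold up
    rw [eval_map, aeval_def]
  rw [h1]
  have h2 : ((aeval z).comp ((rename Sum.inl).comp
      (aeval (Fin.cons 1 X : Fin (n + 1) → MvPolynomial (Fin n) k)))) =
      (aeval (Fin.cons 1 fun a => z (Sum.inl a) : Fin (n + 1) → K) :
        MvPolynomial (Fin (n + 1)) k →ₐ[k] K) := by
    apply MvPolynomial.algHom_ext
    intro i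
    refine Fin.cases ?_ (fun j => ?_) i
    · simp
    · simp
  exact DFunLike.congr_fun h2 F

theorem pf_PTT : T_PTT := by
  intro k K _ _ _ n ι e Z c z
  constructor
  · intro h
    have hZ : ∀ i ∈ Z, eval (Fin.cons 1 fun a => z (Sum.inl a) : Fin (n + 1) → K)
        (upT K (frmT c) i) = 0 := by
      intro i hi
      have := h (rename Sum.inl (deh (frmT c i))) (Or.inl ⟨i, hi, rfl⟩)
      rw [aeval_deh] at this
      exact this
    have hnZ : ∀ i : {i // i ∉ Z}, eval (Fin.cons 1 fun a => z (Sum.inl a) : Fin (n + 1) → K)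
        (upT K (frmT c) i.1) * z (Sum.inr i) = 1 := by
      intro i
      have := h (rename Sum.inl (deh (frmT c i.1)) * X (Sum.inr i) - 1) (Or.inr ⟨i, rfl⟩)
      rw [map_sub, map_mul, map_one, aeval_X, aeval_deh, sub_eq_zero] at this
      exact this
    refine ⟨fun i => ⟨fun hi => ?_, hZ i⟩, fun i => ?_⟩
    · by_contra hn
      have := hnZ ⟨i, hn⟩
      rw [hi, zero_mul] at this
      exact zero_ne_one this
    · exact (eq_inv_of_mul_eq_one_right (hnZ i))
  · rintro ⟨h1, h2⟩ g (⟨i, hi, rfl⟩ | ⟨i, rfl⟩)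
    · rw [aeval_deh]
      exact (h1 i).2 hi
    · rw [map_sub, map_mul, map_one, aeval_X, aeval_deh, sub_eq_zero, h2 i]
      refine mul_inv_cancel₀ ?_
      intro h0
      exact i.2 ((h1 i.1).1 h0)

end Pool.Agent.H99.CI
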